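import Pool.Agent.K3h7.HUD.Defs

/-!
# Brambles and tree decompositions
-/

set_option autoImplicit false

namespace Pool.Agent.K3h7.HUD

open SimpleGraph

section Helly

variable {ι : Type} {T : SimpleGraph ι}

/-- closed under paths -/
def PathConvex (T : SimpleGraph ι) (S : Set ι) : Prop :=
  ∀ a b, a ∈ S → b ∈ S → ∀ P : T.Walk a b, P.IsPath → ∀ c ∈ P.support, c ∈ S

lemma PathConvex.inter {S S' : Set ι} (h : PathConvex T S) (h' : PathConvex T S') :
    PathConvex T (S ∩ S') :=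
  fun a b ha hb P hP c hc => ⟨h a b ha.1 hb.1 P hP c hc, h' a b ha.2 hb.2 P hP c hc⟩

/-- walk-connected sets in trees are path convex -/
lemma pathConvex_of_walks (hT : T.IsTree) {S : Set ι}
    (h : ∀ a b, a ∈ S → b ∈ S → ∃ Q : T.Walk a b, ∀ c ∈ Q.support, c ∈ S) :
    PathConvex T S := by
  classical
  intro a b ha hb P hP c hc
  obtain ⟨Q, hQ⟩ := h a b ha hb
  have h1 : (⟨P, hP⟩ : T.Path a b) = Q.toPath := (hT.isAcyclic.subsingleton_path _ _).elim _ _
  have h2 : P = Q.toPath.1 := congrArg Subtype.val h1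
  rw [h2] at hc
  exact hQ c (Q.support_toPath_subset_support hc)

lemma adj_step {S S' : Set ι} (hS : PathConvex T S) (hS' : PathConvex T S')
    (hT : T.IsTree) {a x y : ι} (ha : a ∈ S ∩ S') (hx : x ∈ S) (hy : y ∈ S') (hxy : T.Adj x y) :
    x ∈ S' ∨ y ∈ S := by
  classical
  obtain ⟨P⟩ := hT.connected.preconnected y a
  by_cases hxs : x ∈ (P.toPath : T.Walk y a).support
  · left
    exact hS' y a hy ha.2 _ P.toPath.2 x hxs
  · right
    have hpath : (Walk.cons hxy (P.toPath : T.Walk y a)).IsPath := by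
      rw [Walk.cons_isPath_iff]
      exact ⟨P.toPath.2, hxs⟩
    exact hS x a hx ha.1 _ hpath y (by simp)

lemma exists_mem_inter {S S' : Set ι} (hS : PathConvex T S) (hS' : PathConvex T S')
    (hT : T.IsTree) {a : ι} (ha : a ∈ S ∩ S') :
    ∀ {c b : ι} (R : T.Walk c b), c ∈ S → b ∈ S' → (∀ z ∈ R.support, z ∈ S ∨ z ∈ S') →
      ∃ z ∈ R.support, z ∈ S ∧ z ∈ S'
  | _, _, Walk.nil, hc, hb, _ => ⟨_, by simp, hc, hb⟩
  | c, b, Walk.cons (v := z) h R, hc, hb, hR => by
    by_cases hz : z ∈ S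
    · obtain ⟨y, hy, hy'⟩ := exists_mem_inter hS hS' hT ha R hz hb
        (fun w hw => hR w (by simp [hw]))
      exact ⟨y, by simp [hy], hy'⟩
    · have hz' : z ∈ S' := (hR z (by simp)).resolve_left hz
      rcases adj_step hS hS' hT ha hc hz' h with h1 | h1
      · exact ⟨c, by simp, hc, h1⟩
      · exact absurd h1 hz

lemma helly_three (hT : T.IsTree) {S1 S2 S3 : Set ι} (h1 : PathConvex T S1)
    (h2 : PathConvex T S2) (h3 : PathConvex T S3) (h12 : (S1 ∩ S2).Nonempty)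
    (h13 : (S1 ∩ S3).Nonempty) (h23 : (S2 ∩ S3).Nonempty) : (S1 ∩ (S2 ∩ S3)).Nonempty := by
  classical
  obtain ⟨c, hc1, hc2⟩ := h12
  obtain ⟨b, hb1, hb3⟩ := h13
  obtain ⟨a, ha2, ha3⟩ := h23
  obtain ⟨Q⟩ := hT.connected.preconnected c a
  obtain ⟨P⟩ := hT.connected.preconnected a b
  let R : T.Walk c b := ((Q.toPath : T.Walk c a).append (P.toPath : T.Walk a b)).toPath
  have hR : ∀ z ∈ R.support, z ∈ S2 ∨ z ∈ S3 := by
    intro z hz
    have := Walk.support_toPath_subset_support _ hz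
    rw [Walk.mem_support_append_iff] at this
    rcases this with h | h
    · left; exact h2 c a hc2 ha2 _ Q.toPath.2 z h
    · right; exact h3 a b ha3 hb3 _ P.toPath.2 z h
  obtain ⟨z, hz, hz'⟩ := exists_mem_inter h2 h3 hT ⟨ha2, ha3⟩ R hc2 hb3 hR
  refine ⟨z, h1 c b hc1 hb1 R ?_ z hz, hz'⟩
  exact ((Q.toPath : T.Walk c a).append (P.toPath : T.Walk a b)).toPath.2

lemma helly (hT : T.IsTree) {κ : Type} (s : Finset κ) (hs : s.Nonempty) :
    ∀ (S : κ → Set ι), (∀ i ∈ s, PathConvex T (S i)) →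
      (∀ i ∈ s, ∀ j ∈ s, (S i ∩ S j).Nonempty) → ∃ t, ∀ i ∈ s, t ∈ S i := by
  classical
  induction hs using Finset.Nonempty.cons_induction with
  | singleton a =>
    intro S _ hp
    obtain ⟨t, ht, _⟩ := hp a (by simp) a (by simp)
    exact ⟨t, by simpa using ht⟩
  | cons a s ha hs ih =>
    intro S hc hp
    obtain ⟨t, ht⟩ := ih (fun i => S i ∩ S a) (fun i hi => (hc i (by simp [hi])).inter
      (hc a (by simp))) (fun i hi j hj => by
        have h := helly_three hT (hc a (by simp)) (hc i (by simp [hi])) (hc j (by simp [hj]))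
          (hp a (by simp) i (by simp [hi])) (hp a (by simp) j (by simp [hj]))
          (hp i (by simp [hi]) j (by simp [hj]))
        obtain ⟨z, hz1, hz2, hz3⟩ := h
        exact ⟨z, ⟨hz2, hz1⟩, ⟨hz3, hz1⟩⟩)
    refine ⟨t, fun i hi => ?_⟩
    rw [Finset.mem_cons] at hi
    rcases hi with rfl | hi
    · obtain ⟨j, hj⟩ := hs
      exact (ht j hj).2
    · exact (ht i hi).1

end Helly

section BrambleSec

variable {W : Type} {G : SimpleGraph W}

lemma walk_of_induce {ι : Type} {T : SimpleGraph ι} {S : Set ι} :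
    ∀ {a b : S} (_ : (T.induce S).Walk a b), ∃ R : T.Walk (a : ι) (b : ι), ∀ s ∈ R.support, s ∈ S
  | a, _, Walk.nil => ⟨Walk.nil, fun s hs => by
      rw [Walk.support_nil, List.mem_singleton] at hs
      rw [hs]; exact a.2⟩
  | a, b, Walk.cons (v := c) h Q => by
    obtain ⟨R, hR⟩ := walk_of_induce Q
    refine ⟨Walk.cons (v := (c : ι)) (by simpa using h) R, ?_⟩
    intro s hs
    rw [Walk.support_cons, List.mem_cons] at hs
    rcases hs with rfl | hs
    · exact a.2
    · exact hR s hs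

lemma walk_in_subtree (D : TreeDecomposition G) (u : W) {t t' : D.ι}
    (ht : u ∈ D.bag t) (ht' : u ∈ D.bag t') :
    ∃ Q : D.T.Walk t t', ∀ s ∈ Q.support, u ∈ D.bag s := by
  obtain ⟨Q⟩ := (D.connected u).preconnected ⟨t, ht⟩ ⟨t', ht'⟩
  exact walk_of_induce Q

lemma walk_in_union (D : TreeDecomposition G) (U : Set W) :
    ∀ {u u' : W} (w : G.Walk u u'), (∀ z ∈ w.support, z ∈ U) → ∀ {t t' : D.ι},
      u ∈ D.bag t → u' ∈ D.bag t' →
      ∃ Q : D.T.Walk t t', ∀ s ∈ Q.support, ∃ z ∈ U, z ∈ D.bag s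
  | u, _, Walk.nil, hw, t, t', ht, ht' => by
    obtain ⟨Q, hQ⟩ := walk_in_subtree D u ht ht'
    exact ⟨Q, fun s hs => ⟨u, hw u (by simp), hQ s hs⟩⟩
  | u, u', Walk.cons (v := v) h w, hw, t, t', ht, ht' => by
    obtain ⟨i, hi1, hi2⟩ := D.edge u v h
    obtain ⟨Q, hQ⟩ := walk_in_subtree D u ht hi1
    obtain ⟨Q', hQ'⟩ := walk_in_union D U w (fun z hz => hw z (by simp [hz])) hi2 ht'
    refine ⟨Q.append Q', ?_⟩
    intro s hs
    rw [Walk.mem_support_append_iff] at hs
    rcases hs with hs | hs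
    · exact ⟨u, hw u (by simp), hQ s hs⟩
    · exact hQ' s hs

/-- A finite family of pairwise intersecting connected sets is hit by a bag. -/
theorem exists_bag_hitting (D : TreeDecomposition G) {κ : Type} [Fintype κ] [Nonempty κ]
    (U : κ → Set W) (hconn : ∀ i, (G.induce (U i)).Preconnected)
    (hinter : ∀ i j, (U i ∩ U j).Nonempty) :
    ∃ t, ∀ i, ∃ u ∈ U i, u ∈ D.bag t := by
  have h := helly D.isTree (Finset.univ : Finset κ) Finset.univ_nonempty
    (fun i => {t | ∃ u ∈ U i, u ∈ D.bag t}) ?_ ?_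
  · obtain ⟨t, ht⟩ := h
    exact ⟨t, fun i => ht i (Finset.mem_univ i)⟩
  · intro i _
    apply pathConvex_of_walks D.isTree
    rintro t t' ⟨u, hu, hut⟩ ⟨u', hu', hut'⟩
    obtain ⟨w0⟩ := hconn i ⟨u, hu⟩ ⟨u', hu'⟩
    obtain ⟨w, hw⟩ := walk_of_induce w0
    exact walk_in_union D (U i) w hw hut hut'
  · intro i _ j _
    obtain ⟨u, hu1, hu2⟩ := hinter i j
    obtain ⟨t, ht⟩ := D.cover u
    exact ⟨t, ⟨u, hu1, ht⟩, ⟨u, hu2, ht⟩⟩

/-- The trivial tree decomposition with one bag. -/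
def trivialTD (G : SimpleGraph W) : TreeDecomposition G where
  ι := Unit
  finite := inferInstance
  T := ⊥
  isTree := by
    refine ⟨⟨fun a b => by cases a; cases b; exact Reachable.refl _⟩, ?_⟩
    exact isAcyclic_bot
  bag := fun _ => Set.univ
  cover := fun v => ⟨(), trivial⟩
  edge := fun u v _ => ⟨(), trivial, trivial⟩
  connected := fun v => by
    have : Nonempty ({t : Unit | v ∈ (Set.univ : Set W)} : Set Unit) := ⟨⟨(), trivial⟩⟩
    refine ⟨fun a b => ?_⟩
    have hab : a = b := Subsingleton.elim _ _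
    rw [hab]

/-- the set in the definition of `ltreeAlpha` is not empty -/
lemma ltree_nonempty [Finite W] (G : SimpleGraph W) :
    {c | ∃ (D : TreeDecomposition G) (ℓ : W → ℕ), IsLayering G ℓ ∧
      ∀ t i, (G.induce {v | v ∈ D.bag t ∧ ℓ v = i}).indepNum ≤ c}.Nonempty := by
  classical
  refine ⟨Nat.card W, trivialTD G, fun _ => 0, fun u v _ => Or.inl rfl, fun t i => ?_⟩
  obtain ⟨s, hs⟩ := (G.induce {v | v ∈ (trivialTD G).bag t ∧ (fun _ : W => 0) v = i}).exists_isNIndepSet_indepNum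
  rw [← hs.card_eq]
  have h1 : s.card = (s.map (Function.Embedding.subtype _)).card := (Finset.card_map _).symm
  rw [h1]
  have := Fintype.ofFinite W
  rw [Nat.card_eq_fintype_card]
  exact Finset.card_le_univ _

lemma lt_ltreeAlpha [Finite W] (G : SimpleGraph W) (c : ℕ)
    (h : ∀ (D : TreeDecomposition G) (ℓ : W → ℕ), IsLayering G ℓ →
      ∃ t i, c < (G.induce {v | v ∈ D.bag t ∧ ℓ v = i}).indepNum) : c < ltreeAlpha G := by
  have hm := Nat.sInf_mem (ltree_nonempty G)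
  obtain ⟨D, ℓ, hℓ, hD⟩ := hm
  obtain ⟨t, i, hti⟩ := h D ℓ hℓ
  exact lt_of_lt_of_le hti (hD t i)

end BrambleSec

end Pool.Agent.K3h7.HUD
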