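import Pool.Agent.K3h7.HUD.Mid

/-!
# The configuration of points: rows on horocycles at heights `1 / (S n k)`
-/

set_option autoImplicit false

namespace Pool.Agent.K3h7.HUD

open UpperHalfPlane

/-- the inverses of the scales of the rows -/
def n : ℕ → ℕ
  | 0 => 1
  | k + 1 => 32 * n k ^ 2

lemma n_succ (k : ℕ) : n (k + 1) = 32 * n k ^ 2 := rfl

lemma n_pos : ∀ k, 0 < n k
  | 0 => Nat.one_pos
  | k + 1 => by
    have := n_pos k
    rw [n_succ]; positivity

lemma n_lt_succ (k : ℕ) : n k < n (k + 1) := by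
  have := n_pos k
  rw [n_succ]
  nlinarith

lemma n_mono : Monotone n := monotone_nat_of_le_succ fun k => (n_lt_succ k).le

lemma n_dvd {i j : ℕ} (h : i < j) : ∃ m, n j = 2 * m * n i := by
  induction j with
  | zero => omega
  | succ j ih =>
    rcases Nat.lt_succ_iff_lt_or_eq.1 h with h | h
    · obtain ⟨m, hm⟩ := ih h
      exact ⟨16 * n j * (2 * m), by rw [n_succ, pow_two]; nth_rewrite 2 [hm]; ring⟩
    · subst h
      exact ⟨16 * n i, by rw [n_succ]; ring⟩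

lemma n_sq {i k : ℕ} (h : i < k) : 32 * n i ^ 2 ≤ n k := by
  have := n_mono (Nat.succ_le_of_lt h)
  rwa [Nat.succ_eq_add_one, n_succ] at this

/-- vertices of the rows: the level `k` and the number of the vertex in the row -/
abbrev RV (L N : ℕ) := Σ k : Fin L, Fin (4 * N * n k)

/-- all vertices: the rows and one more vertex -/
abbrev Vtx (L N : ℕ) := Option (RV L N)

variable {L N : ℕ}

/-- the horizontal coordinate -/
noncomputable def xc (u : RV L N) : ℝ := (2 * (u.2 : ℕ) + 1) / (n u.1 : ℝ)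

/-- the scale -/
noncomputable def d (k : ℕ) : ℝ := 1 / (n k : ℝ)

lemma nR_pos (k : ℕ) : (0 : ℝ) < n k := by exact_mod_cast n_pos k

lemma d_pos (k : ℕ) : 0 < d k := by
  have := nR_pos k
  unfold d; positivity

lemma d_le_one (k : ℕ) : d k ≤ 1 := by
  have h := nR_pos k
  unfold d
  rw [div_le_one h]
  exact_mod_cast n_pos k

lemma d_anti {i j : ℕ} (h : i ≤ j) : d j ≤ d i := by
  unfold d
  apply one_div_le_one_div_of_le (nR_pos i)
  exact_mod_cast n_mono h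

lemma d_sq {i k : ℕ} (h : i < k) : 32 * d k ≤ d i ^ 2 := by
  unfold d
  have h1 := nR_pos i
  have h2 := nR_pos k
  have h3 : 32 * (n i : ℝ) ^ 2 ≤ n k := by exact_mod_cast n_sq h
  rw [one_div_pow, mul_one_div, div_le_div_iff₀ h2 (by positivity)]
  linarith

lemma sep {u v : RV L N} (h : u ≠ v) (hl : u.1 ≤ v.1) : d v.1 ^ 2 ≤ (xc u - xc v) ^ 2 := by
  obtain ⟨i, a⟩ := u
  obtain ⟨j, b⟩ := v
  simp only [xc] at *
  have hi := nR_pos i
  have hj := nR_pos j
  rcases eq_or_lt_of_le hl with hij | hij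
  · subst hij
    have hab : (a : ℕ) ≠ b := by
      intro hab
      exact h (by rw [Fin.ext hab])
    have e : (2 * ((a : ℕ) : ℝ) + 1) / (n i) - (2 * ((b : ℕ) : ℝ) + 1) / (n i) =
        (2 * (((a : ℕ) : ℤ) - ((b : ℕ) : ℤ) : ℤ) : ℝ) * d i := by
      unfold d; push_cast; field_simp; ring
    rw [e, mul_pow]
    have h1 : (1 : ℝ) ≤ (2 * (((a : ℕ) : ℤ) - ((b : ℕ) : ℤ) : ℤ) : ℝ) ^ 2 := by
      have h2 : ((a : ℕ) : ℤ) - ((b : ℕ) : ℤ) ≠ 0 := by
        intro h3; apply hab; omega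
      have h3 : (1 : ℤ) ≤ (((a : ℕ) : ℤ) - ((b : ℕ) : ℤ)) ^ 2 := by
        have := sq_nonneg (((a : ℕ) : ℤ) - ((b : ℕ) : ℤ))
        have h4 : (((a : ℕ) : ℤ) - ((b : ℕ) : ℤ)) ^ 2 ≠ 0 := pow_ne_zero 2 h2
        omega
      have h4 : (1 : ℝ) ≤ ((((a : ℕ) : ℤ) - ((b : ℕ) : ℤ) : ℤ) : ℝ) ^ 2 := by exact_mod_cast h3
      rw [mul_pow]
      linarith
    have h2 := sq_nonneg (d i)
    nlinarith
  · obtain ⟨m, hm⟩ := n_dvd (Fin.lt_def.1 hij)
    have hmR : (n j : ℝ) = 2 * m * n i := by exact_mod_cast hm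
    have hmpos : (0 : ℝ) < m := by
      rcases Nat.eq_zero_or_pos m with h0 | h0
      · exfalso
        rw [h0] at hmR
        simp only [Nat.cast_zero, mul_zero, zero_mul] at hmR
        exact hj.ne' hmR
      · exact_mod_cast h0
    have e : (2 * ((a : ℕ) : ℝ) + 1) / (n i) - (2 * ((b : ℕ) : ℝ) + 1) / (n j) =
        (((2 * (a : ℕ) + 1) * (2 * m) - (2 * (b : ℕ) + 1) : ℤ) : ℝ) * d j := by
      unfold d; push_cast; rw [hmR]; field_simp
    rw [e, mul_pow]
    have h1 : (1 : ℝ) ≤ ((((2 * (a : ℕ) + 1) * (2 * m) - (2 * (b : ℕ) + 1) : ℤ)) : ℝ) ^ 2 := by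
      have h2 : (((2 * (a : ℕ) + 1) * (2 * m) - (2 * (b : ℕ) + 1) : ℤ)) ≠ 0 := by
        intro h3
        have h4 : ((2 * (a : ℕ) + 1) * (2 * m) : ℤ) = 2 * ((2 * (a : ℕ) + 1) * m) := by ring
        rw [h4] at h3
        omega
      have h3 : (1 : ℤ) ≤ (((2 * (a : ℕ) + 1) * (2 * m) - (2 * (b : ℕ) + 1) : ℤ)) ^ 2 := by
        have := sq_nonneg (((2 * (a : ℕ) + 1) * (2 * m) - (2 * (b : ℕ) + 1) : ℤ))
        have h4 := pow_ne_zero 2 h2
        omega
      exact_mod_cast h3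
    have h2 := sq_nonneg (d j)
    nlinarith

/-- the centres of the disks -/
noncomputable def pt (S : ℝ) (hS : 0 < S) : Vtx L N → ℍ
  | none => ⟨⟨0, 8 * N + 1⟩, by show (0 : ℝ) < 8 * N + 1; positivity⟩
  | some u => ⟨⟨xc u, d u.1 / S⟩, div_pos (d_pos _) hS⟩

/-- the graph -/
noncomputable def gr (L N : ℕ) (r : ℝ) (hS : 0 < Real.sinh r) : SimpleGraph (Vtx L N) where
  Adj u v := u ≠ v ∧ dist (pt (Real.sinh r) hS u) (pt (Real.sinh r) hS v) ≤ 2 * r
  symm := ⟨fun u v h => ⟨h.1.symm, by rw [dist_comm]; exact h.2⟩⟩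
  loopless := ⟨fun u h => h.1 rfl⟩

lemma gr_isDisk (r : ℝ) (hr : 0 ≤ r) (hS : 0 < Real.sinh r) :
    IsHyperbolicUniformDiskGraph r (gr L N r hS) :=
  ⟨pt (Real.sinh r) hS, fun u v huv => by
    rw [meet_iff hr]
    exact ⟨fun h => h.2, fun h => ⟨huv, h⟩⟩⟩

variable {r : ℝ} {hS : 0 < Real.sinh r}

lemma adj_iff (hr : 0 ≤ r) {u v : RV L N} (h : u ≠ v) :
    (gr L N r hS).Adj (some u) (some v) ↔
      (xc u - xc v) ^ 2 + ((d u.1 - d v.1) / Real.sinh r) ^ 2 ≤ 4 * d u.1 * d v.1 := by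
  have h1 : (some u : Vtx L N) ≠ some v := fun h' => h (Option.some_injective _ h')
  show (_ ∧ _) ↔ _
  rw [dist_le_iff hr]
  have e1 : (pt (Real.sinh r) hS (some u)).re = xc u := rfl
  have e2 : (pt (Real.sinh r) hS (some v)).re = xc v := rfl
  have e3 : (pt (Real.sinh r) hS (some u)).im = d u.1 / Real.sinh r := rfl
  have e4 : (pt (Real.sinh r) hS (some v)).im = d v.1 / Real.sinh r := rfl
  rw [e1, e2, e3, e4]
  have e5 : 4 * Real.sinh r ^ 2 * (d u.1 / Real.sinh r) * (d v.1 / Real.sinh r) =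
    4 * d u.1 * d v.1 := by
    field_simp
  rw [e5, ← sub_div]
  exact ⟨fun h => h.2, fun h => ⟨h1, h⟩⟩

lemma adj_le (hr : 0 ≤ r) {u v : RV L N}
    (h : (gr L N r hS).Adj (some u) (some v)) : (xc u - xc v) ^ 2 ≤ 4 * d u.1 * d v.1 := by
  have hne : u ≠ v := fun h' => h.1 (by rw [h'])
  rw [adj_iff hr hne] at h
  have := sq_nonneg ((d u.1 - d v.1) / Real.sinh r)
  linarith

/-- in a row only consecutive vertices are adjacent -/
lemma row_adj_imp (hr : 0 ≤ r) {k : Fin L} {a b : Fin (4 * N * n k)}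
    (h : (gr L N r hS).Adj (some ⟨k, a⟩) (some ⟨k, b⟩)) :
    (a : ℕ) = b + 1 ∨ (b : ℕ) = a + 1 := by
  have hne : (⟨k, a⟩ : RV L N) ≠ ⟨k, b⟩ := fun h' => h.1 (by rw [h'])
  have h1 := adj_le hr h
  have hk := nR_pos k
  simp only [xc] at h1
  have e : (2 * ((a : ℕ) : ℝ) + 1) / (n k) - (2 * ((b : ℕ) : ℝ) + 1) / (n k) =
        (2 * ((((a : ℕ) : ℤ) - ((b : ℕ) : ℤ) : ℤ) : ℝ)) * d k := by
      unfold d; push_cast; field_simp; ring
  rw [e] at h1
  have hd := d_pos k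
  have h2 : ((((a : ℕ) : ℤ) - ((b : ℕ) : ℤ) : ℤ) : ℝ) ^ 2 ≤ 1 := by
    have h3 : ((((a : ℕ) : ℤ) - ((b : ℕ) : ℤ) : ℤ) : ℝ) ^ 2 * (4 * d k ^ 2) ≤
      1 * (4 * d k ^ 2) := by
      nlinarith
    exact le_of_mul_le_mul_right h3 (by positivity)
  have h3 : (((a : ℕ) : ℤ) - ((b : ℕ) : ℤ)) ^ 2 ≤ 1 := by exact_mod_cast h2
  have h4 : (a : ℕ) ≠ b := fun h' => hne (by rw [Fin.ext h'])
  rw [sq_le_one_iff_abs_le_one, abs_le] at h3
  omega

/-- consecutive vertices in a row are adjacent -/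
lemma row_adj (hr : 0 ≤ r) {k : Fin L} {a b : Fin (4 * N * n k)} (h : (a : ℕ) = b + 1) :
    (gr L N r hS).Adj (some ⟨k, a⟩) (some ⟨k, b⟩) := by
  have hne : (⟨k, a⟩ : RV L N) ≠ ⟨k, b⟩ := by
    intro h'
    have : a = b := by simpa using h'
    rw [this] at h
    omega
  rw [adj_iff hr hne]
  have hk := nR_pos k
  simp only [xc]
  have e : (2 * ((a : ℕ) : ℝ) + 1) / (n k) - (2 * ((b : ℕ) : ℝ) + 1) / (n k) = 2 * d k := by
      rw [h]; unfold d; push_cast; field_simp; ring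
  rw [e]
  apply le_of_eq
  simp
  ring

/-- a vertex has at most one neighbour in the rows above -/
lemma one_above (hr : 0 ≤ r) {u v w : RV L N} (huv : u ≠ v) (hu : u.1 < w.1) (hv : v.1 < w.1)
    (h1 : (gr L N r hS).Adj (some u) (some w)) (h2 : (gr L N r hS).Adj (some v) (some w)) :
    False := by
  wlog hle : u.1 ≤ v.1 generalizing u v
  · exact this huv.symm hv hu h2 h1 (le_of_lt (not_le.1 hle))
  have h3 := sep huv hle
  have h4 := adj_le hr h1
  have h5 := adj_le hr h2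
  have h6 : 32 * d w.1 ≤ d v.1 ^ 2 := d_sq (Fin.lt_def.1 hv)
  have h7 := d_pos w.1
  have h8 := d_le_one u.1
  have h9 := d_le_one v.1
  have h10 : (xc u - xc w) ^ 2 ≤ 4 * d w.1 := by nlinarith
  have h11 : (xc v - xc w) ^ 2 ≤ 4 * d w.1 := by nlinarith
  have h12 : (xc u - xc v) ^ 2 ≤ 2 * (xc u - xc w) ^ 2 + 2 * (xc v - xc w) ^ 2 := by
    nlinarith [sq_nonneg ((xc u - xc w) + (xc v - xc w))]
  nlinarith

/-- the numbers of the vertices of the column `i` -/
def cl (i : ℕ) : ℕ → ℕ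
  | 0 => 4 * i
  | k + 1 => 16 * n k * (2 * cl i k + 1)

lemma cl_upper (i : ℕ) : ∀ k, 2 * cl i k + 2 ≤ (8 * i + 2) * n k
  | 0 => by simp [cl, n]; omega
  | k + 1 => by
    have ih := cl_upper i k
    have hk := n_pos k
    rw [cl, n_succ]
    have : 32 * n k * (2 * cl i k + 2) ≤ 32 * n k * ((8 * i + 2) * n k) :=
      Nat.mul_le_mul_left _ ih
    nlinarith

lemma cl_lower (i : ℕ) : ∀ k, 8 * i * n k ≤ 2 * cl i k
  | 0 => by simp [cl, n]; omega
  | k + 1 => by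
    have ih := cl_lower i k
    have hk := n_pos k
    rw [cl, n_succ]
    have : 32 * n k * (8 * i * n k) ≤ 32 * n k * (2 * cl i k) := Nat.mul_le_mul_left _ ih
    nlinarith

lemma cl_lt {i N : ℕ} (hi : i < N) (k : ℕ) : cl i k < 4 * N * n k := by
  have h1 := cl_upper i k
  have h2 : (8 * i + 2) * n k ≤ (8 * N) * n k := Nat.mul_le_mul_right _ (by omega)
  nlinarith

/-- the vertex of the column `i` at the level `k` -/
def cv (i : Fin N) (k : Fin L) : RV L N := ⟨k, ⟨cl i k, cl_lt i.2 k⟩⟩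

lemma xc_cv (i : Fin N) (k : Fin L) : 8 * (i : ℝ) ≤ xc (cv i k) ∧ xc (cv i k) ≤ 8 * (i : ℝ) + 2 := by
  have hk := nR_pos k
  have h1 : ((8 * i * n k : ℕ) : ℝ) ≤ ((2 * cl i k : ℕ) : ℝ) := by exact_mod_cast cl_lower i k
  have h2 : ((2 * cl i k + 2 : ℕ) : ℝ) ≤ (((8 * i + 2) * n k : ℕ) : ℝ) := by
    exact_mod_cast cl_upper i k
  push_cast at h1 h2
  simp only [xc, cv]
  constructor
  · rw [le_div_iff₀ hk]; linarith
  · rw [div_le_iff₀ hk]; linarith

/-- consecutive vertices of a column are adjacent -/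
lemma col_adj (hr : 0 ≤ r) (i : Fin N) {k l : Fin L} (hkl : (l : ℕ) = k + 1)
    (hbig : (n l : ℝ) ≤ Real.sinh r) :
    (gr L N r hS).Adj (some (cv i k)) (some (cv i l)) := by
  have hne : cv i k ≠ cv (L := L) i l := by
    intro h'
    have h2 : k = l := congrArg Sigma.fst h'
    rw [h2] at hkl
    omega
  rw [adj_iff hr hne]
  have hk := nR_pos k
  have hl := nR_pos l
  have e : xc (cv i k) - xc (cv (L := L) i l) = - d l := by
    simp only [xc, cv, d]
    have e2 : cl i l = 16 * n k * (2 * cl i k + 1) := by rw [hkl]; rfl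
    have e3 : n l = 32 * n k ^ 2 := by rw [hkl]; rfl
    rw [e2, e3]
    push_cast
    field_simp
    ring
  rw [e]
  have e1 : (cv i k).1 = k := rfl
  have e2 : (cv (L := L) i l).1 = l := rfl
  rw [e1, e2]
  have hdk := d_pos k
  have hdl := d_pos l
  have hlk : d l ≤ d k := d_anti (by omega)
  have hk1 := d_le_one k
  have h1 : ((d k - d l) / Real.sinh r) ^ 2 ≤ d k * d l := by
    rw [div_pow, div_le_iff₀ (by positivity)]
    have h2 : (d k - d l) ^ 2 ≤ d k ^ 2 := by nlinarith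
    have h3 : 1 ≤ d l * Real.sinh r := by
      unfold d
      rw [one_div, inv_mul_eq_div, le_div_iff₀ hl]
      linarith
    have h4 : (1 : ℝ) ≤ Real.sinh r := le_trans (by exact_mod_cast n_pos l) hbig
    have h5 : d l * Real.sinh r ≤ d l * Real.sinh r ^ 2 := by
      apply mul_le_mul_of_nonneg_left _ hdl.le
      nlinarith
    have h6 : d k * 1 ≤ d k * (d l * Real.sinh r ^ 2) :=
      mul_le_mul_of_nonneg_left (h3.trans h5) hdk.le
    nlinarith
  nlinarith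

/-- vertices of different columns are not adjacent -/
lemma col_sep (hr : 0 ≤ r) {i j : Fin N} (hij : i ≠ j) (k l : Fin L) :
    ¬ (gr L N r hS).Adj (some (cv i k)) (some (cv j l)) := by
  intro h
  have h1 := adj_le hr h
  have h2 := xc_cv i k
  have h3 := xc_cv j l
  have h4 := d_le_one (cv i k).1
  have h5 := d_le_one (cv (L := L) j l).1
  have h6 := d_pos (cv i k).1
  have h7 := d_pos (cv (L := L) j l).1
  have h8 : (xc (cv i k) - xc (cv (L := L) j l)) ^ 2 ≤ 4 := by nlinarith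
  have h9 : |xc (cv i k) - xc (cv (L := L) j l)| ≤ 2 := by
    apply abs_le_of_sq_le_sq _ (by norm_num)
    linarith
  rw [abs_le] at h9
  rcases lt_or_gt_of_ne hij with h | h
  · have h10 : ((i : ℕ) : ℝ) + 1 ≤ ((j : ℕ) : ℝ) := by exact_mod_cast h
    linarith
  · have h10 : ((j : ℕ) : ℝ) + 1 ≤ ((i : ℕ) : ℝ) := by exact_mod_cast h
    linarith

/-- the additional vertex is adjacent to all others -/
lemma top_adj (hr : 0 ≤ r) (hbig : (8 * N + 1 : ℝ) * n L ≤ Real.sinh r) (u : RV L N) :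
    (gr L N r hS).Adj none (some u) := by
  refine ⟨by simp, ?_⟩
  rw [dist_le_iff hr]
  have e1 : (pt (L := L) (N := N) (Real.sinh r) hS none).re = 0 := rfl
  have e2 : (pt (Real.sinh r) hS (some u)).re = xc u := rfl
  have e3 : (pt (L := L) (N := N) (Real.sinh r) hS none).im = 8 * N + 1 := rfl
  have e4 : (pt (Real.sinh r) hS (some u)).im = d u.1 / Real.sinh r := rfl
  rw [e1, e2, e3, e4]
  have hk := nR_pos u.1
  set A : ℝ := 8 * N + 1 with hA
  have hA1 : 1 ≤ A := by rw [hA]; have : (0 : ℝ) ≤ N := Nat.cast_nonneg N; linarith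
  have hd := d_pos u.1
  have hL := nR_pos L
  have hSbig : (1 : ℝ) ≤ Real.sinh r := by
    have : (1 : ℝ) ≤ n L := by exact_mod_cast n_pos L
    nlinarith
  have hx0 : 0 ≤ xc u := by unfold xc; positivity
  have hx1 : xc u ≤ A := by
    unfold xc
    rw [div_le_iff₀ hk]
    have h1 : 2 * ((u.2 : ℕ) : ℝ) + 2 ≤ 8 * N * n u.1 := by
      have := u.2.2
      have h2 : 2 * (u.2 : ℕ) + 2 ≤ 2 * (4 * N * n u.1) := by omega
      have h3 : ((2 * (u.2 : ℕ) + 2 : ℕ) : ℝ) ≤ ((2 * (4 * N * n u.1) : ℕ) : ℝ) := by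
        exact_mod_cast h2
      push_cast at h3
      linarith
    rw [hA]
    nlinarith
  have hy0 : 0 ≤ d u.1 / Real.sinh r := by positivity
  have hy1 : d u.1 / Real.sinh r ≤ A := by
    rw [div_le_iff₀ (by linarith)]
    have := d_le_one u.1
    nlinarith
  have h1 : (0 - xc u) ^ 2 ≤ A ^ 2 := by nlinarith
  have h2 : (A - d u.1 / Real.sinh r) ^ 2 ≤ A ^ 2 := by nlinarith
  have h3 : 4 * Real.sinh r ^ 2 * A * (d u.1 / Real.sinh r) = 4 * A * (d u.1 * Real.sinh r) := by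
    field_simp
  rw [h3]
  have h4 : A ≤ d u.1 * Real.sinh r := by
    unfold d
    rw [one_div, inv_mul_eq_div, le_div_iff₀ hk]
    refine le_trans ?_ hbig
    apply mul_le_mul_of_nonneg_left _ (by linarith)
    exact_mod_cast n_mono u.1.2.le
  nlinarith

end Pool.Agent.K3h7.HUD
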