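import Mathlib

/-!
# Hyperbolic uniform disk graphs and the layered tree-independence number: definitions
-/

set_option autoImplicit false

namespace Pool.Agent.K3h7.HUD

open UpperHalfPlane

/-- `G` is a hyperbolic uniform disk graph with radius `r`: it is the intersection graph of a
family of closed disks of radius `r` in the hyperbolic plane (the upper half plane with its metric
of constant curvature `-1`); the disk of the vertex `v` has the centre `p v`. -/
def IsHyperbolicUniformDiskGraph {V : Type} (r : ℝ) (G : SimpleGraph V) : Prop :=
  ∃ p : V → ℍ, ∀ u v, u ≠ v →
    (G.Adj u v ↔ (Metric.closedBall (p u) r ∩ Metric.closedBall (p v) r).Nonempty)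

/-- A tree decomposition of `G`: a finite tree `T` with a bag of vertices of `G` at every node,
such that every vertex and every edge of `G` is contained in some bag and, for every vertex `v`, the
nodes whose bags contain `v` induce a connected subgraph of the tree (a subtree). -/
structure TreeDecomposition {V : Type} (G : SimpleGraph V) where
  /-- the set of the nodes -/
  ι : Type
  finite : Finite ι
  /-- the tree -/
  T : SimpleGraph ι
  isTree : T.IsTree
  /-- the bags -/
  bag : ι → Set V
  cover : ∀ v, ∃ t, v ∈ bag t
  edge : ∀ u v, G.Adj u v → ∃ t, u ∈ bag t ∧ v ∈ bag t
  connected : ∀ v, (T.induce {t | v ∈ bag t}).Connected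

/-- A layering of `G`, given by the function `ℓ` that maps a vertex to the index of its layer: the
ends of every edge are in the same layer or in two consecutive layers. -/
def IsLayering {V : Type} (G : SimpleGraph V) (ℓ : V → ℕ) : Prop :=
  ∀ u v, G.Adj u v → ℓ u = ℓ v ∨ ℓ u = ℓ v + 1 ∨ ℓ v = ℓ u + 1

/-- The layered tree-independence number: the least `c` for which there are a tree decomposition
and a layering such that the independence number of the subgraph induced by the intersection of
any bag with any layer is at most `c`. -/
noncomputable def ltreeAlpha {V : Type} (G : SimpleGraph V) : ℕ :=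
  sInf {c | ∃ (D : TreeDecomposition G) (ℓ : V → ℕ), IsLayering G ℓ ∧
    ∀ t i, (G.induce {v | v ∈ D.bag t ∧ ℓ v = i}).indepNum ≤ c}

end Pool.Agent.K3h7.HUD
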