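import Pool.Agent.K3h7.HUD.Main

/-!
# The radius
-/

set_option autoImplicit false

namespace Pool.Agent.K3h7.HUD

lemma n_eq (k : ℕ) : 32 * n k = 2 ^ (5 * 2 ^ k) := by
  induction k with
  | zero => simp [n]
  | succ k ih =>
    have : 32 * n (k + 1) = (32 * n k) ^ 2 := by rw [n_succ]; ring
    rw [this, ih, ← pow_mul]
    congr 1
    ring

lemma radius_nat (c : ℕ) :
    4 * ((8 * (3 * c + 1) + 1) * n (2 * (3 * c + 1))) ≤ 2 ^ (2 ^ (6 * c + 5)) := by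
  set L := 2 * (3 * c + 1) with hL
  have h1 := n_eq L
  have h2 : 2 ^ (6 * c + 5) = 5 * 2 ^ L + 3 * 2 ^ L := by
    rw [hL, show 6 * c + 5 = 2 * (3 * c + 1) + 3 by ring, pow_add]; ring
  rw [h2, pow_add, ← h1]
  have h3 : L < 2 ^ L := Nat.lt_two_pow_self
  have h4 : 3 * 2 ^ L < 2 ^ (3 * 2 ^ L) := Nat.lt_two_pow_self
  have h5 : 3 * c + 2 ≤ 2 ^ (3 * 2 ^ L) := by omega
  have h6 : 4 * ((8 * (3 * c + 1) + 1) * n L) ≤ 32 * n L * (3 * c + 2) := by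
    have := n_pos L
    nlinarith
  exact h6.trans (Nat.mul_le_mul_left _ h5)

lemma sinh_lower (m : ℕ) (hm : 1 ≤ m) : ((2 : ℝ) ^ m) / 4 ≤ Real.sinh m := by
  rw [Real.sinh_eq]
  have h1 : (2 : ℝ) ^ m ≤ Real.exp m := by
    have h2 : (2 : ℝ) ≤ Real.exp 1 := by
      have := Real.add_one_le_exp (1 : ℝ)
      linarith
    calc (2 : ℝ) ^ m ≤ (Real.exp 1) ^ m := pow_le_pow_left₀ (by norm_num) h2 m
      _ = Real.exp m := by rw [← Real.exp_nat_mul]; simp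
  have h2 : Real.exp (-(m : ℝ)) ≤ 1 := by
    rw [Real.exp_le_one_iff]
    have : (0 : ℝ) ≤ m := Nat.cast_nonneg m
    linarith
  have h3 : (2 : ℝ) ≤ 2 ^ m := by
    calc (2 : ℝ) = 2 ^ 1 := by norm_num
      _ ≤ 2 ^ m := pow_le_pow_right₀ (by norm_num) hm
  linarith

lemma radius {c : ℕ} {r : ℝ} (hr : (2 : ℝ) ^ (6 * c + 5) ≤ r) :
    (8 * ((3 * c + 1 : ℕ) : ℝ) + 1) * n (2 * (3 * c + 1)) ≤ Real.sinh r := by
  have h1 : ((4 * ((8 * (3 * c + 1) + 1) * n (2 * (3 * c + 1))) : ℕ) : ℝ) ≤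
      ((2 ^ (2 ^ (6 * c + 5)) : ℕ) : ℝ) := by exact_mod_cast radius_nat c
  have h2 := sinh_lower (2 ^ (6 * c + 5)) Nat.one_le_two_pow
  have h3 : Real.sinh ((2 ^ (6 * c + 5) : ℕ) : ℝ) ≤ Real.sinh r := by
    rw [Real.sinh_le_sinh]
    push_cast
    exact hr
  push_cast at h1 h2 h3 ⊢
  linarith

/-- The main theorem. -/
theorem main (c : ℕ) (r : ℝ) (hr : (2 : ℝ) ^ (6 * c + 5) ≤ r) :
    ∃ (V : Type) (_ : Finite V) (G : SimpleGraph V), IsHyperbolicUniformDiskGraph r G ∧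
      G.CliqueFree 5 ∧ (∃ v, ∀ u, u ≠ v → G.Adj v u) ∧ c < ltreeAlpha G := by
  have hrpos : 0 < r := lt_of_lt_of_le (by positivity) hr
  have hS : 0 < Real.sinh r := Real.sinh_pos_iff.2 hrpos
  have hbig := radius hr
  refine ⟨Vtx (2 * (3 * c + 1)) (3 * c + 1), inferInstance, gr _ _ r hS,
    gr_isDisk r hrpos.le hS, cliqueFree hrpos.le, ⟨none, ?_⟩, lower c hrpos.le rfl rfl hbig⟩
  intro u hu
  cases u with
  | none => exact absurd rfl hu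
  | some u => exact top_adj hrpos.le hbig u

end Pool.Agent.K3h7.HUD
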