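import Pool.Agent.K3h7.HUD.Config
import Pool.Agent.K3h7.HUD.Bramble

/-!
# The layered tree-independence number of hyperbolic uniform disk graphs is not bounded
-/

set_option autoImplicit false

namespace Pool.Agent.K3h7.HUD

open SimpleGraph

/-- a relation in which everybody is related to at most one smaller number is two-colourable -/
lemma exists_colouring (R : ℕ → ℕ → Prop) :
    ∀ L : ℕ, (∀ i j k, i < k → j < k → k < L → R i k → R j k → i = j) →
      ∃ c : ℕ → Bool, ∀ i k, i < k → k < L → R i k → c i ≠ c k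
  | 0, _ => ⟨fun _ => true, fun i k _ h => by omega⟩
  | L + 1, hR => by
    obtain ⟨c, hc⟩ := exists_colouring R L (fun i j k h1 h2 h3 => hR i j k h1 h2 (by omega))
    classical
    by_cases h : ∃ i, i < L ∧ R i L
    · obtain ⟨i, hi, hiL⟩ := h
      refine ⟨Function.update c L (!(c i)), fun a k hak hk hR' => ?_⟩
      rcases Nat.lt_succ_iff_lt_or_eq.1 hk with hk | hk
      · rw [Function.update_of_ne (by omega), Function.update_of_ne (by omega)]
        exact hc a k hak hk hR'
      · subst hk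
        have : a = i := hR a i k hak hi (by omega) hR' hiL
        subst this
        rw [Function.update_self, Function.update_of_ne (by omega)]
        simp
    · refine ⟨c, fun a k hak hk hR' => ?_⟩
      rcases Nat.lt_succ_iff_lt_or_eq.1 hk with hk | hk
      · exact hc a k hak hk hR'
      · subst hk
        exact absurd ⟨a, hak, hR'⟩ h

variable {L N : ℕ} {r : ℝ} {hS : 0 < Real.sinh r}

/-- a transversal of the rows contains an independent set of half its size -/
lemma transversal (hr : 0 ≤ r) {M : ℕ} (hL : L = 2 * M)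
    (z : ∀ k : Fin L, Fin (4 * N * n k)) :
    ∃ I : Finset (Fin L), M ≤ I.card ∧ ∀ k ∈ I, ∀ l ∈ I,
      ¬ (gr L N r hS).Adj (some ⟨k, z k⟩) (some ⟨l, z l⟩) := by
  classical
  set R : ℕ → ℕ → Prop := fun i k => ∃ (hi : i < L) (hk : k < L),
    (gr L N r hS).Adj (some ⟨⟨i, hi⟩, z ⟨i, hi⟩⟩) (some ⟨⟨k, hk⟩, z ⟨k, hk⟩⟩) with hR
  obtain ⟨c, hc⟩ := exists_colouring R L (by
    rintro i j k hik hjk hk ⟨hi, _, h1⟩ ⟨hj, _, h2⟩
    by_contra hne
    refine one_above hr ?_ ?_ ?_ h1 h2
    · intro h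
      apply hne
      have := congrArg (fun s : RV L N => (s.1 : ℕ)) h
      exact this
    · exact hik
    · exact hjk)
  have key : ∀ b : Bool, ∀ k ∈ (Finset.univ.filter fun k : Fin L => c k = b),
      ∀ l ∈ (Finset.univ.filter fun k : Fin L => c k = b),
      ¬ (gr L N r hS).Adj (some ⟨k, z k⟩) (some ⟨l, z l⟩) := by
    intro b k hk l hl hadj
    rw [Finset.mem_filter] at hk hl
    rcases lt_trichotomy k l with h | h | h
    · exact hc k l h l.2 ⟨k.2, l.2, hadj⟩ (hk.2.trans hl.2.symm)
    · subst h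
      exact (gr L N r hS).loopless.irrefl _ hadj
    · exact hc l k h k.2 ⟨l.2, k.2, hadj.symm⟩ (hl.2.trans hk.2.symm)
  have hcard : (Finset.univ.filter fun k : Fin L => c k = true).card +
      (Finset.univ.filter fun k : Fin L => c k = false).card = L := by
    have h1 := Finset.card_filter_add_card_filter_not (s := (Finset.univ : Finset (Fin L)))
      (fun k : Fin L => c k = true)
    simpa using h1
  by_cases h : M ≤ (Finset.univ.filter fun k : Fin L => c k = true).card
  · exact ⟨_, h, key true⟩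
  · exact ⟨_, by omega, key false⟩

/-- the members of the bramble: a row and a column -/
def cross (L N : ℕ) (q : Fin L × Fin N) : Set (Vtx L N) :=
  {v | (∃ j, v = some ⟨q.1, j⟩) ∨ ∃ k, v = some (cv q.2 k)}

lemma row_reach (hr : 0 ≤ r) (q : Fin L × Fin N) (a : ℕ) :
    ∀ (ha : a < 4 * N * n q.1) (h0 : 0 < 4 * N * n q.1),
      ((gr L N r hS).induce (cross L N q)).Reachable
        ⟨some ⟨q.1, ⟨a, ha⟩⟩, Or.inl ⟨_, rfl⟩⟩ ⟨some ⟨q.1, ⟨0, h0⟩⟩, Or.inl ⟨_, rfl⟩⟩ := by
  induction a with
  | zero => intro ha h0; exact Reachable.refl _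
  | succ a ih =>
    intro ha h0
    have h1 := ih (by omega) h0
    refine Reachable.trans (Adj.reachable ?_) h1
    show (gr L N r hS).Adj _ _
    exact row_adj hr rfl

lemma col_reach (hr : 0 ≤ r) (hbig : (n L : ℝ) ≤ Real.sinh r) (q : Fin L × Fin N) (a : ℕ) :
    ∀ (ha : a < L) (h0 : 0 < L),
      ((gr L N r hS).induce (cross L N q)).Reachable
        ⟨some (cv q.2 ⟨a, ha⟩), Or.inr ⟨_, rfl⟩⟩ ⟨some (cv q.2 ⟨0, h0⟩), Or.inr ⟨_, rfl⟩⟩ := by
  induction a with
  | zero => intro ha h0; exact Reachable.refl _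
  | succ a ih =>
    intro ha h0
    have h1 := ih (by omega) h0
    refine Reachable.trans (Adj.reachable ?_) h1
    show (gr L N r hS).Adj _ _
    apply SimpleGraph.Adj.symm
    apply col_adj hr
    · rfl
    · refine le_trans ?_ hbig
      exact_mod_cast n_mono (by simp; omega)

lemma cross_conn (hr : 0 ≤ r) (hbig : (n L : ℝ) ≤ Real.sinh r) (q : Fin L × Fin N) :
    ((gr L N r hS).induce (cross L N q)).Preconnected := by
  have hL : 0 < L := lt_of_le_of_lt (Nat.zero_le _) q.1.2
  have h0 : 0 < 4 * N * n q.1 := lt_of_le_of_lt (Nat.zero_le _) (cl_lt q.2.2 q.1)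
  have hub : ∀ v : cross L N q, ((gr L N r hS).induce (cross L N q)).Reachable v
      ⟨some (cv q.2 q.1), Or.inr ⟨_, rfl⟩⟩ := by
    rintro ⟨v, ⟨j, rfl⟩ | ⟨k, rfl⟩⟩
    · have h1 := row_reach (hS := hS) hr q j j.2 h0
      have h2 := row_reach (hS := hS) hr q (cl q.2 q.1) (cl_lt q.2.2 q.1) h0
      exact h1.trans h2.symm
    · have h1 := col_reach (hS := hS) hr hbig q k k.2 hL
      have h2 := col_reach (hS := hS) hr hbig q q.1 q.1.2 hL
      exact h1.trans h2.symm
  intro u v
  exact (hub u).trans (hub v).symm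

/-- every tree decomposition has a bag with a large independent set -/
lemma bag_indep (hr : 0 ≤ r) (hbig : (n L : ℝ) ≤ Real.sinh r) {M : ℕ} (hM : 0 < M)
    (hL : L = 2 * M) (hN : N = M) (D : TreeDecomposition (gr L N r hS)) :
    ∃ t, ∃ I : Finset (RV L N), M ≤ I.card ∧ (∀ u ∈ I, some u ∈ D.bag t) ∧
      ∀ u ∈ I, ∀ v ∈ I, ¬ (gr L N r hS).Adj (some u) (some v) := by
  classical
  have : Nonempty (Fin L × Fin N) := ⟨⟨⟨0, by omega⟩, ⟨0, by omega⟩⟩⟩
  obtain ⟨t, ht⟩ := exists_bag_hitting D (cross L N) (cross_conn hr hbig) (fun q q' =>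
    ⟨some (cv q.2 q'.1), Or.inr ⟨_, rfl⟩, Or.inl ⟨_, rfl⟩⟩)
  refine ⟨t, ?_⟩
  by_cases h : ∀ i : Fin N, ∃ k : Fin L, some (cv i k) ∈ D.bag t
  · choose f hf using h
    have hinj : Function.Injective fun i : Fin N => cv i (f i) := by
      intro i j hij
      by_contra hne
      have h1 := xc_cv i (f i)
      have h2 := xc_cv j (f j)
      have hij' : cv i (f i) = cv j (f j) := hij
      rw [hij'] at h1
      rcases lt_or_gt_of_ne hne with h | h
      · have h10 : ((i : ℕ) : ℝ) + 1 ≤ ((j : ℕ) : ℝ) := by exact_mod_cast h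
        linarith
      · have h10 : ((j : ℕ) : ℝ) + 1 ≤ ((i : ℕ) : ℝ) := by exact_mod_cast h
        linarith
    refine ⟨Finset.univ.image fun i : Fin N => cv i (f i), ?_, ?_, ?_⟩
    · rw [Finset.card_image_of_injective _ hinj]
      simp [hN]
    · intro u hu
      rw [Finset.mem_image] at hu
      obtain ⟨i, _, rfl⟩ := hu
      exact hf i
    · intro u hu v hv
      rw [Finset.mem_image] at hu hv
      obtain ⟨i, _, rfl⟩ := hu
      obtain ⟨j, _, rfl⟩ := hv
      by_cases hij : i = j
      · subst hij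
        exact (gr L N r hS).loopless.irrefl _
      · exact col_sep hr hij _ _
  · push Not at h
    obtain ⟨i, hi⟩ := h
    have h1 : ∀ k : Fin L, ∃ j, some ⟨k, j⟩ ∈ D.bag t := by
      intro k
      obtain ⟨u, hu, hut⟩ := ht (k, i)
      rcases hu with ⟨j, rfl⟩ | ⟨k', rfl⟩
      · exact ⟨j, hut⟩
      · exact absurd hut (hi k')
    choose z hz using h1
    obtain ⟨I, hI1, hI2⟩ := transversal (hS := hS) hr hL z
    have hinj : Function.Injective fun k : Fin L => (⟨k, z k⟩ : RV L N) := by
      intro k l hkl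
      exact congrArg Sigma.fst hkl
    refine ⟨I.image fun k => ⟨k, z k⟩, ?_, ?_, ?_⟩
    · rw [Finset.card_image_of_injective _ hinj]
      exact hI1
    · intro u hu
      rw [Finset.mem_image] at hu
      obtain ⟨k, _, rfl⟩ := hu
      exact hz k
    · intro u hu v hv
      rw [Finset.mem_image] at hu hv
      obtain ⟨k, hk, rfl⟩ := hu
      obtain ⟨l, hl, rfl⟩ := hv
      exact hI2 k hk l hl

/-- a clique in the rows has at most three vertices -/
lemma clique_rows (hr : 0 ≤ r) (s : Finset (RV L N))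
    (hs : ∀ u ∈ s, ∀ v ∈ s, u ≠ v → (gr L N r hS).Adj (some u) (some v)) : s.card ≤ 3 := by
  classical
  by_contra hcard
  push Not at hcard
  have hne : s.Nonempty := Finset.card_pos.1 (by omega)
  obtain ⟨w, hw, hmax⟩ := Finset.exists_max_image s (fun u => u.1) hne
  -- at most one vertex at a smaller level
  have h1 : (s.filter fun u => u.1 < w.1).card ≤ 1 := by
    rw [Finset.card_le_one]
    intro u hu v hv
    rw [Finset.mem_filter] at hu hv
    by_contra huv
    refine one_above hr huv hu.2 hv.2 (hs u hu.1 w hw ?_) (hs v hv.1 w hw ?_)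
    · rintro rfl; exact lt_irrefl _ hu.2
    · rintro rfl; exact lt_irrefl _ hv.2
  have h2 : (s.filter fun u => ¬ u.1 < w.1).card ≤ 2 := by
    by_contra h3
    obtain ⟨a, ha, b, hb, c, hc, hab, hac, hbc⟩ := Finset.two_lt_card.1 (not_le.1 h3)
    rw [Finset.mem_filter] at ha hb hc
    have hA : a.1 = w.1 := le_antisymm (hmax a ha.1) (not_lt.1 ha.2)
    have hB : b.1 = w.1 := le_antisymm (hmax b hb.1) (not_lt.1 hb.2)
    have hC : c.1 = w.1 := le_antisymm (hmax c hc.1) (not_lt.1 hc.2)
    have e1 := hs a ha.1 b hb.1 hab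
    have e2 := hs a ha.1 c hc.1 hac
    have e3 := hs b hb.1 c hc.1 hbc
    obtain ⟨k, w'⟩ := w
    obtain ⟨ka, a⟩ := a
    obtain ⟨kb, b⟩ := b
    obtain ⟨kc, c⟩ := c
    simp only at hA hB hC
    subst hA
    subst hB
    subst hC
    have e4 := row_adj_imp hr e1
    have e5 := row_adj_imp hr e2
    have e6 := row_adj_imp hr e3
    omega
  have h3 := Finset.card_filter_add_card_filter_not (s := s) (fun u => u.1 < w.1)
  omega

lemma cliqueFree (hr : 0 ≤ r) : (gr L N r hS).CliqueFree 5 := by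
  classical
  intro t ht
  rw [isNClique_iff] at ht
  obtain ⟨hc, hcard⟩ := ht
  have h1 : (Finset.eraseNone t).card ≤ 3 := by
    apply clique_rows (hS := hS) hr
    intro u hu v hv huv
    rw [Finset.mem_eraseNone] at hu hv
    exact hc hu hv (fun h => huv (Option.some_injective _ h))
  have h2 : t ⊆ insert none ((Finset.eraseNone t).map Function.Embedding.some) := by
    intro x hx
    cases x with
    | none => simp
    | some u =>
      rw [Finset.mem_insert]
      right
      rw [Finset.mem_map]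
      exact ⟨u, Finset.mem_eraseNone.2 hx, rfl⟩
  have h3 := Finset.card_le_card h2
  have h4 := Finset.card_insert_le (none : Vtx L N) ((Finset.eraseNone t).map Function.Embedding.some)
  rw [Finset.card_map] at h4
  omega

/-- **Lower bound** -/
theorem lower (c : ℕ) (hr : 0 ≤ r) (hL : L = 2 * (3 * c + 1)) (hN : N = 3 * c + 1)
    (hbig : (8 * N + 1 : ℝ) * n L ≤ Real.sinh r) : c < ltreeAlpha (gr L N r hS) := by
  classical
  have hbig' : (n L : ℝ) ≤ Real.sinh r := by
    refine le_trans ?_ hbig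
    have := nR_pos L
    have h2 : (0 : ℝ) ≤ N := Nat.cast_nonneg N
    nlinarith
  apply lt_ltreeAlpha
  intro D ℓ hℓ
  obtain ⟨t, I, hI1, hI2, hI3⟩ := bag_indep (hS := hS) hr hbig' (M := 3 * c + 1) (by omega) hL hN D
  refine ⟨t, ?_⟩
  -- pigeonhole for the layers
  have hmaps : ∀ u ∈ I, ℓ (some u) + 1 ∈ ({ℓ none, ℓ none + 1, ℓ none + 2} : Finset ℕ) := by
    intro u _
    have h := hℓ none (some u) (top_adj hr hbig u)
    simp only [Finset.mem_insert, Finset.mem_singleton]
    omega
  have hcard3 : ({ℓ none, ℓ none + 1, ℓ none + 2} : Finset ℕ).card ≤ 3 := Finset.card_le_three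
  obtain ⟨y, _, hy⟩ := Finset.exists_lt_card_fiber_of_mul_lt_card_of_maps_to (n := c) hmaps (by
    calc ({ℓ none, ℓ none + 1, ℓ none + 2} : Finset ℕ).card * c ≤ 3 * c :=
          Nat.mul_le_mul_right _ hcard3
      _ < 3 * c + 1 := by omega
      _ ≤ I.card := hI1)
  refine ⟨y - 1, lt_of_lt_of_le hy ?_⟩
  set J := I.filter fun u => ℓ (some u) + 1 = y with hJ
  let f : {u // u ∈ J} ↪ {v | v ∈ D.bag t ∧ ℓ v = y - 1} :=
    ⟨fun u => ⟨some u.1, by
      have h := Finset.mem_filter.1 u.2
      exact ⟨hI2 _ h.1, by omega⟩⟩, fun u v h => by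
      have h1 := congrArg Subtype.val h
      exact Subtype.ext (Option.some_injective _ h1)⟩
  have h1 : (J.attach.map f).card = J.card := by rw [Finset.card_map, Finset.card_attach]
  rw [← h1]
  apply IsIndepSet.card_le_indepNum
  intro a ha b hb hab hadj
  rw [Finset.coe_map] at ha hb
  obtain ⟨u, _, rfl⟩ := ha
  obtain ⟨v, _, rfl⟩ := hb
  exact hI3 u.1 (Finset.mem_filter.1 u.2).1 v.1 (Finset.mem_filter.1 v.2).1 hadj

end Pool.Agent.K3h7.HUD
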