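import Pool.Agent.K3h7.HUD.Defs

/-!
# Two disks of radius `r` in the hyperbolic plane meet iff the centres have distance at most `2 r`
-/

set_option autoImplicit false

namespace Pool.Agent.K3h7.HUD

open UpperHalfPlane

lemma cosh_dist_re_im (z w : ℍ) :
    Real.cosh (dist z w) = 1 + ((z.re - w.re) ^ 2 + (z.im - w.im) ^ 2) / (2 * z.im * w.im) := by
  rw [UpperHalfPlane.cosh_dist, Complex.dist_eq, ← Complex.normSq_eq_norm_sq,
    Complex.normSq_apply]
  simp only [Complex.sub_re, Complex.sub_im, UpperHalfPlane.coe_re, UpperHalfPlane.coe_im]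
  ring

/-- distance in terms of the coordinates -/
lemma dist_le_iff {r : ℝ} (hr : 0 ≤ r) (z w : ℍ) :
    dist z w ≤ 2 * r ↔
      (z.re - w.re) ^ 2 + (z.im - w.im) ^ 2 ≤ 4 * Real.sinh r ^ 2 * z.im * w.im := by
  have h1 : dist z w ≤ 2 * r ↔ Real.cosh (dist z w) ≤ Real.cosh (2 * r) := by
    rw [Real.cosh_le_cosh, abs_of_nonneg dist_nonneg, abs_of_nonneg (by linarith)]
  rw [h1, cosh_dist_re_im, Real.cosh_two_mul, Real.cosh_sq]
  have hz := z.im_pos
  have hw := w.im_pos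
  have hp : 0 < 2 * z.im * w.im := by positivity
  constructor
  · intro h
    have h2 : ((z.re - w.re) ^ 2 + (z.im - w.im) ^ 2) / (2 * z.im * w.im) ≤
      2 * Real.sinh r ^ 2 := by linarith
    rw [div_le_iff₀ hp] at h2
    linarith
  · intro h
    have h2 : ((z.re - w.re) ^ 2 + (z.im - w.im) ^ 2) / (2 * z.im * w.im) ≤
      2 * Real.sinh r ^ 2 := by
      rw [div_le_iff₀ hp]; linarith
    linarith

/-- midpoints exist -/
lemma exists_mid (z w : ℍ) : ∃ m : ℍ,
    Real.cosh (dist z m) ^ 2 = (Real.cosh (dist z w) + 1) / 2 ∧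
    Real.cosh (dist w m) ^ 2 = (Real.cosh (dist z w) + 1) / 2 := by
  have hz := z.im_pos
  have hw := w.im_pos
  set x1 := z.re with hx1
  set y1 := z.im with hy1
  set x2 := w.re with hx2
  set y2 := w.im with hy2
  set s := y1 + y2 with hs
  have hspos : 0 < s := by positivity
  set Q := (x1 - x2) ^ 2 + s ^ 2 with hQ
  have hQpos : 0 < Q := by positivity
  set ym := Real.sqrt (y1 * y2 * Q) / s with hym
  have hympos : 0 < ym := by positivity
  have hym2 : ym ^ 2 = y1 * y2 * Q / s ^ 2 := by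
    rw [hym, div_pow, Real.sq_sqrt (by positivity)]
  set xm := (x1 * y2 + x2 * y1) / s with hxm
  have hx1m : x1 - xm = y1 * (x1 - x2) / s := by
    rw [hxm]; field_simp; ring
  have hx2m : x2 - xm = y2 * (x2 - x1) / s := by
    rw [hxm]; field_simp; ring
  refine ⟨⟨⟨xm, ym⟩, hympos⟩, ?_, ?_⟩
  · rw [cosh_dist_re_im, cosh_dist_re_im]
    have e1 : (⟨⟨xm, ym⟩, hympos⟩ : ℍ).re = xm := rfl
    have e2 : (⟨⟨xm, ym⟩, hympos⟩ : ℍ).im = ym := rfl
    rw [e1, e2, ← hx1, ← hx2, ← hy1, ← hy2]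
    have h1 : 1 + ((x1 - xm) ^ 2 + (y1 - ym) ^ 2) / (2 * y1 * ym) =
        ((x1 - xm) ^ 2 + y1 ^ 2 + ym ^ 2) / (2 * y1 * ym) := by
      field_simp; ring
    have h2 : (x1 - xm) ^ 2 + y1 ^ 2 + ym ^ 2 = y1 * Q / s := by
      rw [hx1m, hym2, hQ, hs]; field_simp
    rw [h1, h2, div_pow, mul_pow, mul_pow, hym2, hQ, hs]
    field_simp
    ring
  · rw [cosh_dist_re_im, cosh_dist_re_im]
    have e1 : (⟨⟨xm, ym⟩, hympos⟩ : ℍ).re = xm := rfl
    have e2 : (⟨⟨xm, ym⟩, hympos⟩ : ℍ).im = ym := rfl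
    rw [e1, e2, ← hx1, ← hx2, ← hy1, ← hy2]
    have h1 : 1 + ((x2 - xm) ^ 2 + (y2 - ym) ^ 2) / (2 * y2 * ym) =
        ((x2 - xm) ^ 2 + y2 ^ 2 + ym ^ 2) / (2 * y2 * ym) := by
      field_simp; ring
    have h2 : (x2 - xm) ^ 2 + y2 ^ 2 + ym ^ 2 = y2 * Q / s := by
      rw [hx2m, hym2, hQ, hs]; field_simp; ring
    rw [h1, h2, div_pow, mul_pow, mul_pow, hym2, hQ, hs]
    field_simp
    ring

lemma meet_iff {r : ℝ} (hr : 0 ≤ r) (z w : ℍ) :
    (Metric.closedBall z r ∩ Metric.closedBall w r).Nonempty ↔ dist z w ≤ 2 * r := by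
  constructor
  · rintro ⟨m, h1, h2⟩
    rw [Metric.mem_closedBall] at h1 h2
    have := dist_triangle_left z w m
    linarith
  · intro h
    obtain ⟨m, h1, h2⟩ := exists_mid z w
    have hc : Real.cosh (dist z w) ≤ Real.cosh (2 * r) := by
      rw [Real.cosh_le_cosh, abs_of_nonneg dist_nonneg, abs_of_nonneg (by linarith)]
      exact h
    have hc2 : (Real.cosh (dist z w) + 1) / 2 ≤ Real.cosh r ^ 2 := by
      rw [Real.cosh_two_mul] at hc
      have := Real.cosh_sq r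
      linarith
    have key : ∀ a : ℍ, Real.cosh (dist a m) ^ 2 ≤ Real.cosh r ^ 2 → dist m a ≤ r := by
      intro a ha
      have h3 : Real.cosh (dist a m) ≤ Real.cosh r :=
        (pow_le_pow_iff_left₀ (Real.cosh_pos _).le (Real.cosh_pos _).le (by norm_num)).1 ha
      rw [Real.cosh_le_cosh, abs_of_nonneg dist_nonneg, abs_of_nonneg hr] at h3
      rw [dist_comm]
      exact h3
    exact ⟨m, key z (by rw [h1]; exact hc2), key w (by rw [h2]; exact hc2)⟩

end Pool.Agent.K3h7.HUD
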